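import Pool.Agent.G02.Stmts

/-!
# G02, row VB1: recipe B, the curve `V`
-/

set_option autoImplicit false

namespace Pool.Agent.G02.H30

open Pool.Agent.NJ

private theorem zq : ∀ M e N : ZMod 8, (4 * M ≠ 0 ∨ 4 * e ≠ 0) →
    N ^ 2 ≠ 5 * M ^ 4 - 2 * M ^ 2 * e ^ 2 - 6 * e ^ 4 := by decide

private theorem z2q : ∀ M e N : ZMod 8, 4 * e ≠ 0 →
    N ^ 2 ≠ 2 * M ^ 4 - 2 * M ^ 2 * e ^ 2 - 3 * e ^ 4 := by decide

private theorem four_ne {x : ℤ} (h : ¬ (2 : ℤ) ∣ x) : (4 * (x : ZMod 8)) ≠ 0 := by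
  intro h0
  have h1 : ((4 * x : ℤ) : ZMod 8) = 0 := by push_cast; exact h0
  have h2 : (8 : ℤ) ∣ 4 * x := by
    have := (ZMod.intCast_zmod_eq_zero_iff_dvd (4 * x) 8).1 h1
    exact_mod_cast this
  omega

private theorem castk {k : ℤ} (hk : k % 4 = 3) :
    (2 * (k : ZMod 8)) = 6 ∧ (k : ZMod 8) ^ 2 = 1 := by
  obtain ⟨m, hm⟩ : ∃ m : ℤ, k = 4 * m + 3 := ⟨k / 4, by omega⟩
  have h8 : (8 : ZMod 8) = 0 := by decide
  rw [hm]
  push_cast
  constructor
  · linear_combination (m : ZMod 8) * h8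
  · linear_combination (2 * (m : ZMod 8) ^ 2 + 3 * m + 1) * h8

private theorem castn {p m : ℕ} (hp : p % 8 = m) : (p : ZMod 8) = m := by
  rw [← hp]
  exact (ZMod.natCast_mod p 8).symm

private theorem pndvd {p l : ℕ} (hp : p.Prime) (hl : l.Prime) (h : p ≠ l) : ¬ (p : ℤ) ∣ (l : ℤ) := by
  intro h1
  have h2 : p ∣ l := by exact_mod_cast h1
  exact h ((Nat.prime_dvd_prime_iff_eq hp hl).1 h2)

theorem vb1 (hSUB : SubStmt) (hRLB : RlbStmt) (hLA : LaStmt) (hLB : LbStmt)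
    (hSQF : NJ.SQFStmt) : Vb1Stmt := by
  intro k p q r hR hk d M e N B hQ hpd
  have : Fact p.Prime := ⟨hR.pp⟩
  have : Fact q.Prime := ⟨hR.pq⟩
  have : Fact r.Prime := ⟨hR.pr⟩
  obtain ⟨hr8, s, hS⟩ := hRLB k p q r hR
  have hpI : Prime (p : ℤ) := Nat.prime_iff_prime_int.1 hR.pp
  have hqI : Prime (q : ℤ) := Nat.prime_iff_prime_int.1 hR.pq
  have hrI : Prime (r : ℤ) := Nat.prime_iff_prime_int.1 hR.pr
  have hp0 : (p : ℤ) ≠ 0 := hpI.ne_zero
  have hq0 : (q : ℤ) ≠ 0 := hqI.ne_zero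
  have hr0 : (r : ℤ) ≠ 0 := hrI.ne_zero
  have hp2 : ¬ (p : ℤ) ∣ 2 := by
    have := pndvd hR.pp Nat.prime_two hS.p2
    exact_mod_cast this
  have hr2 : ¬ (r : ℤ) ∣ 2 := by
    have := pndvd hR.pr Nat.prime_two hS.r2
    exact_mod_cast this
  -- the support
  have hsup := (hSUB k p q r hR d M e N B).1 hQ
  have hsup2 : ∀ l : ℕ, l.Prime → (l : ℤ) ∣ d → l = 2 ∨ l = q := by
    intro l hl hld
    rcases hsup l hl hld with h | h | h | h
    · exact Or.inl h
    · exact absurd (h ▸ hld) hpd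
    · exact Or.inr h
    · exact Or.inl h
  obtain ⟨ε, hε, hd⟩ := (hSQF d q p hQ.sqf hR.pq hR.pp hS.q2 hS.p2 hS.npq.symm).1 hsup2
  -- the place p
  have h1 : legendreSym p d = 1 := by
    refine hLA _ _ d M e N B hQ p hS.p2 hpd (Or.inl ⟨⟨-(2 * k * q), by ring⟩,
      ⟨-(2 * k ^ 2 * q ^ 3), by ring⟩, ?_⟩)
    intro h
    have h' : (p : ℤ) ∣ 2 * k ^ 2 * q ^ 3 := by
      have h3 : (p : ℤ) * p ∣ p * (2 * k ^ 2 * q ^ 3) := by
        have : (p : ℤ) * (2 * k ^ 2 * q ^ 3) = -(-(2 * k ^ 2 * p * q ^ 3)) := by ring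
        rw [this, dvd_neg, ← pow_two]
        exact h
      exact (mul_dvd_mul_iff_left hp0).1 h3
    rcases hpI.dvd_or_dvd h' with h4 | h4
    · rcases hpI.dvd_or_dvd h4 with h5 | h5
      · exact hp2 h5
      · exact hS.kp (hpI.dvd_of_dvd_pow h5)
    · exact pndvd hR.pp hR.pq hS.npq (hpI.dvd_of_dvd_pow h4)
  -- the place r
  have hab : (-(2 * k * p * q) : ℤ) ^ 2 - 4 * (-(2 * k ^ 2 * p * q ^ 3)) =
      r * (4 * k ^ 2 * p * q ^ 2) := by
    rw [hR.hr]; ring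
  have h2 : legendreSym r d = 1 := by
    refine hLB _ _ d M e N B hQ r hS.r2 ?_ ?_ ?_
    · intro h
      rw [dvd_neg] at h
      rcases hrI.dvd_or_dvd h with h4 | h4
      · rcases hrI.dvd_or_dvd h4 with h5 | h5
        · rcases hrI.dvd_or_dvd h5 with h6 | h6
          · exact hr2 h6
          · exact hS.kr (hrI.dvd_of_dvd_pow h6)
        · exact pndvd hR.pr hR.pp hS.npr.symm h5
      · exact pndvd hR.pr hR.pq hS.nqr.symm (hrI.dvd_of_dvd_pow h4)
    · rw [hab]; exact ⟨_, rfl⟩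
    · rw [hab, pow_two]
      intro h
      have h' := (mul_dvd_mul_iff_left hr0).1 h
      rcases hrI.dvd_or_dvd h' with h4 | h4
      · rcases hrI.dvd_or_dvd h4 with h5 | h5
        · rcases hrI.dvd_or_dvd h5 with h6 | h6
          · have : (r : ℤ) ∣ 2 := hrI.dvd_of_dvd_pow (n := 2) (by norm_num; exact h6)
            exact hr2 this
          · exact hS.kr (hrI.dvd_of_dvd_pow h6)
        · exact pndvd hR.pr hR.pp hS.npr.symm h5
      · exact pndvd hR.pr hR.pq hS.nqr.symm (hrI.dvd_of_dvd_pow h4)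
  -- symbols
  have hpm1 : legendreSym p (-1) = -1 := by
    rw [legendreSym.at_neg_one hS.p2, ZMod.χ₄_nat_three_mod_four (by have := hR.mp; omega)]
  have hp2' : legendreSym p 2 = -1 := by
    rw [legendreSym.at_two hS.p2, ZMod.χ₈_nat_eq_if_mod_eight]
    have := hR.mp
    rw [if_neg (by omega), if_neg (by omega)]
  have hrm1 : legendreSym r (-1) = 1 := by
    rw [legendreSym.at_neg_one hS.r2, ZMod.χ₄_nat_one_mod_four (by omega)]
  have hr2' : legendreSym r 2 = -1 := by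
    rw [legendreSym.at_two hS.r2, ZMod.χ₈_nat_eq_if_mod_eight]
    rw [if_neg (by omega), if_neg (by omega)]
  have hP8 : ((p : ℕ) : ZMod 8) = 3 := by
    have := castn hR.mp
    exact_mod_cast this
  have hQ8 : ((q : ℕ) : ZMod 8) = 5 := by
    have := castn hR.mq
    exact_mod_cast this
  obtain ⟨hk2, hkk⟩ := castk hk
  have hcop := hQ.cop
  -- the two impossible values
  have hnq : d ≠ q := by
    intro hdq
    have hB : B = -(2 * k ^ 2 * p * q ^ 2) := by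
      have h3 := hQ.hb
      rw [hdq] at h3
      have h4 : (q : ℤ) * B = q * (-(2 * k ^ 2 * p * q ^ 2)) := by
        rw [← h3]; ring
      exact mul_left_cancel₀ hq0 h4
    have heq := hQ.eq
    rw [hB, hdq] at heq
    have hc := congrArg (fun z : ℤ => (z : ZMod 8)) heq
    push_cast at hc
    rw [hP8, hQ8] at hc
    have hc2 : (N : ZMod 8) ^ 2 = 5 * (M : ZMod 8) ^ 4 - 2 * (M : ZMod 8) ^ 2 * (e : ZMod 8) ^ 2
        - 6 * (e : ZMod 8) ^ 4 := by
      have h8 : (8 : ZMod 8) = 0 := by decide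
      linear_combination hc - 15 * (M : ZMod 8) ^ 2 * (e : ZMod 8) ^ 2 * hk2 -
        150 * (e : ZMod 8) ^ 4 * hkk - (11 * (M : ZMod 8) ^ 2 * (e : ZMod 8) ^ 2 +
        18 * (e : ZMod 8) ^ 4) * h8
    refine zq M e N ?_ hc2
    by_cases he : (2 : ℤ) ∣ e
    · left
      apply four_ne
      intro hM
      have h5 : IsUnit (2 : ℤ) := hcop.isUnit_of_dvd' (hM.mul_left d) he
      rw [Int.isUnit_iff] at h5
      omega
    · exact Or.inr (four_ne he)
  have hn2q : d ≠ 2 * q := by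
    intro hdq
    have hB : B = -(k ^ 2 * p * q ^ 2) := by
      have h3 := hQ.hb
      rw [hdq] at h3
      have h4 : (2 * (q : ℤ)) * B = (2 * (q : ℤ)) * (-(k ^ 2 * p * q ^ 2)) := by
        rw [← h3]; ring
      exact mul_left_cancel₀ (mul_ne_zero two_ne_zero hq0) h4
    have heq := hQ.eq
    rw [hB, hdq] at heq
    have hc := congrArg (fun z : ℤ => (z : ZMod 8)) heq
    push_cast at hc
    rw [hP8, hQ8] at hc
    have hc2 : (N : ZMod 8) ^ 2 = 2 * (M : ZMod 8) ^ 4 - 2 * (M : ZMod 8) ^ 2 * (e : ZMod 8) ^ 2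
        - 3 * (e : ZMod 8) ^ 4 := by
      have h8 : (8 : ZMod 8) = 0 := by decide
      linear_combination hc - 15 * (M : ZMod 8) ^ 2 * (e : ZMod 8) ^ 2 * hk2 -
        75 * (e : ZMod 8) ^ 4 * hkk - (11 * (M : ZMod 8) ^ 2 * (e : ZMod 8) ^ 2 +
        9 * (e : ZMod 8) ^ 4 - (M : ZMod 8) ^ 4) * h8
    refine z2q M e N ?_ hc2
    apply four_ne
    intro he
    have h5 : IsUnit (2 : ℤ) := hcop.isUnit_of_dvd' ⟨q * M, by rw [hdq]; ring⟩ he
    rw [Int.isUnit_iff] at h5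
    omega
  have hps := hS.hpQ
  have hrs := hS.hrQ
  rcases hε with rfl | rfl <;> rcases hd with rfl | rfl | rfl | rfl
  · rfl
  · rw [one_mul, hp2'] at h1
    norm_num at h1
  · exact absurd (one_mul _) hnq
  · exact absurd (one_mul _) hn2q
  · rw [hpm1] at h1
    norm_num at h1
  · rw [legendreSym.mul, hrm1, hr2'] at h2
    norm_num at h2
  · rw [legendreSym.mul, hpm1, hps] at h1
    rw [legendreSym.mul, hrm1, hrs] at h2
    omega
  · rw [legendreSym.mul, legendreSym.mul, hpm1, hps, hp2'] at h1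
    rw [legendreSym.mul, legendreSym.mul, hrm1, hrs, hr2'] at h2
    omega

end Pool.Agent.G02.H30
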